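import Mathlib
import Pool.Agent.X328.FP.Stm
import Pool.Agent.X328.FP.Hq

/-! # ZA: combinatorics of the places -/

set_option autoImplicit false

namespace Pool.Agent.X50.FP

open Finset Pool.Agent.W277.UB Pool.Agent.W277.UB.PlaceData Pool.Agent.X328.FP

universe u v w

theorem t_ZA : S_ZA.{u, v, w} := by
  classical
  intro k K _ _ _ Q d hd r hr hpos
  obtain ⟨hQ0, hQs, -, hQa, hQle, hQeq⟩ := t_HQ.{u, v, w} k K Q
  -- type 1 and type 2
  set ε : Fin (d + 1) → Q.Pl → ℤ := fun i v => Q.ord v (r i - 1) with hε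
  set t1 : Fin (d + 1) → Q.Pl → Prop := fun i v =>
    r i ≠ 1 ∧ 0 < ε i v ∧ ∃ j, j ≠ i ∧ Q.ord v (r j) < ε i v with ht1
  set t2 : Fin (d + 1) → Q.Pl → Prop := fun i v =>
    r i ≠ 1 ∧ 0 < ε i v ∧ ∀ j, j ≠ i → ε i v ≤ Q.ord v (r j) with ht2
  set z : Fin (d + 1) → Q.Pl → ℤ := fun i v => if t1 i v then ε i v else 0 with hz
  set a : Fin (d + 1) → Q.Pl → ℤ := fun i v => if t2 i v then ε i v else 0 with ha
  set S : Finset Q.Pl := univ.biUnion (fun i : Fin (d + 1) =>
    if h : r i - 1 ≠ 0 then (Q.fin (r i - 1) h).toFinset else ∅) with hS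
  have hSmem : ∀ i v, r i ≠ 1 → v ∉ S → Q.ord v (r i - 1) = 0 := by
    intro i v hi hv
    by_contra hcon
    apply hv
    rw [hS, Finset.mem_biUnion]
    refine ⟨i, mem_univ i, ?_⟩
    rw [dif_pos (sub_ne_zero.mpr hi), Set.Finite.mem_toFinset]
    exact hcon
  have ha0 : ∀ i v, 0 ≤ a i v := by
    intro i v
    simp only [ha]
    split_ifs with h
    · exact h.2.1.le
    · exact le_rfl
  have hz0 : ∀ i v, 0 ≤ z i v := by
    intro i v
    simp only [hz]
    split_ifs with h
    · exact h.2.1.le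
    · exact le_rfl
  set A : Fin (d + 1) → ℤ := fun i => ∑ v ∈ S, Q.wt v * a i v with hA
  set Z : Fin (d + 1) → ℤ := fun i => ∑ v ∈ S, Q.wt v * z i v with hZ
  have hA0 : ∀ i, 0 ≤ A i := fun i =>
    Finset.sum_nonneg fun v _ => mul_nonneg (Q.wt_nonneg v) (ha0 i v)
  have hZ0 : ∀ i, 0 ≤ Z i := fun i =>
    Finset.sum_nonneg fun v _ => mul_nonneg (Q.wt_nonneg v) (hz0 i v)
  -- the height
  have hsum : ∀ i, hQ Q (r i) = Z i + A i := by
    intro i
    by_cases hi : r i = 1
    · have h1 : hQ Q (r i) = hQ Q (0 : K) := by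
        have := hQa 1 (r i)
        rw [map_one, hi, sub_self] at this
        rw [hi, this]
      have h2 : hQ Q (0 : K) = 0 := by
        have := hQs 0 ∅ (fun v _ => pole_zero)
        simpa using this.symm
      have h3 : Z i = 0 := Finset.sum_eq_zero fun v _ => by
        simp only [hz]
        rw [if_neg (fun h => h.1 hi), mul_zero]
      have h4 : A i = 0 := Finset.sum_eq_zero fun v _ => by
        simp only [ha]
        rw [if_neg (fun h => h.1 hi), mul_zero]
      rw [h1, h2, h3, h4, add_zero]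
    · have hne : r i - 1 ≠ 0 := sub_ne_zero.mpr hi
      have h1 : hQ Q (r i) = hQ Q (r i - 1) := by
        have := hQa 1 (r i)
        rw [map_one] at this
        exact this.symm
      have h2 := hQeq (r i - 1) hne (S.filter fun v => 0 < ε i v) (by
        intro v hv
        by_cases hvS : v ∈ S
        · by_contra hcon
          exact hv (Finset.mem_filter.mpr ⟨hvS, not_le.mp hcon⟩)
        · exact (hSmem i v hi hvS).le) (by
        intro v hv
        exact (Finset.mem_filter.mp hv).2.le)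
      rw [h1, h2, Finset.sum_filter, hZ, hA, ← Finset.sum_add_distrib]
      apply Finset.sum_congr rfl
      intro v _
      rw [← mul_add]
      by_cases h0 : 0 < ε i v
      · rw [if_pos h0]
        congr 1
        simp only [hz, ha]
        by_cases h3 : ∃ j, j ≠ i ∧ Q.ord v (r j) < ε i v
        · rw [if_pos ⟨hi, h0, h3⟩, if_neg, add_zero]
          rintro ⟨-, -, h4⟩
          obtain ⟨j, hj, hj2⟩ := h3
          exact absurd (h4 j hj) (not_le.mpr hj2)
        · rw [if_neg (fun h => h3 h.2.2), if_pos, zero_add]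
          refine ⟨hi, h0, fun j hj => ?_⟩
          by_contra hcon
          exact h3 ⟨j, hj, not_le.mp hcon⟩
      · rw [if_neg h0]
        simp only [hz, ha]
        rw [if_neg (fun h => h0 h.2.1), if_neg (fun h => h0 h.2.1)]
        simp
  -- a place is of type 2 for at most one index
  have huniq : ∀ v i i', i ≠ i' → t2 i v → t2 i' v → False := by
    intro v i i' hii h h'
    have h1 : Q.G v 1 (r i) := fun _ => by
      have := h'.2.2 i hii
      have := h'.2.1
      omega
    have h2 : Q.G v 1 (r i - 1) := fun _ => h.2.1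
    have h3 := G_sub h1 h2
    rw [sub_sub_cancel] at h3
    have h4 := h3 one_ne_zero
    rw [ord_one] at h4
    omega
  -- the other heights
  have hoth : ∀ j, ∑ i ∈ univ.erase j, A i ≤ hQ Q (r j) := by
    intro j
    have h1 : ∑ i ∈ univ.erase j, A i = ∑ v ∈ S, Q.wt v * ∑ i ∈ univ.erase j, a i v := by
      simp only [hA]
      rw [Finset.sum_comm]
      exact Finset.sum_congr rfl fun v _ => (Finset.mul_sum _ _ _).symm
    rw [h1]
    have h2 : ∑ v ∈ S, Q.wt v * ∑ i ∈ univ.erase j, a i v =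
        ∑ v ∈ S.filter (fun v => ∃ i, i ≠ j ∧ t2 i v), Q.wt v * ∑ i ∈ univ.erase j, a i v := by
      symm
      apply Finset.sum_subset (Finset.filter_subset _ _)
      intro v hv hv2
      rw [Finset.sum_eq_zero, mul_zero]
      intro i hi
      simp only [ha]
      rw [if_neg]
      intro h
      exact hv2 (Finset.mem_filter.mpr ⟨hv, i, Finset.ne_of_mem_erase hi, h⟩)
    rw [h2]
    apply hQle (r j) (hr j) _ (fun v => ∑ i ∈ univ.erase j, a i v)
    intro v hv
    obtain ⟨i, hij, hi⟩ := (Finset.mem_filter.mp hv).2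
    have h3 : ∑ i ∈ univ.erase j, a i v = a i v := by
      apply Finset.sum_eq_single_of_mem i (Finset.mem_erase.mpr ⟨hij, mem_univ i⟩)
      intro i' _ hne
      simp only [ha]
      exact if_neg fun h => huniq v i' i hne h hi
    show ∑ i ∈ univ.erase j, a i v ≤ Q.ord v (r j)
    rw [h3]
    simp only [ha]
    rw [if_pos hi]
    exact hi.2.2 j hij.symm
  -- the sum over all j
  have hA1 : ∑ j, ∑ i ∈ univ.erase j, A i = (d : ℤ) * ∑ i, A i := by
    have h1 : ∀ j, ∑ i ∈ univ.erase j, A i = ∑ i, A i - A j := by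
      intro j
      rw [← Finset.sum_erase_add _ _ (mem_univ j)]
      ring
    rw [Finset.sum_congr rfl fun j _ => h1 j, Finset.sum_sub_distrib]
    simp
    ring
  have hA2 : (d : ℤ) * ∑ i, A i ≤ ∑ j, hQ Q (r j) := by
    rw [← hA1]
    exact Finset.sum_le_sum fun j _ => hoth j
  have hZA : ∑ j, hQ Q (r j) = ∑ i, Z i + ∑ i, A i := by
    rw [← Finset.sum_add_distrib]
    exact Finset.sum_congr rfl fun j _ => hsum j
  have hA3 : 0 ≤ ∑ i, A i := Finset.sum_nonneg fun i _ => hA0 i
  have hdZ : (2 : ℤ) ≤ d := by exact_mod_cast hd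
  have hAZ : ∑ i, A i ≤ ∑ i, Z i := by nlinarith
  obtain ⟨i, -, hi⟩ := Finset.exists_max_image (univ : Finset (Fin (d + 1))) Z ⟨0, mem_univ 0⟩
  have hmax : ∑ j, Z j ≤ ((d : ℤ) + 1) * Z i := by
    have := Finset.sum_le_card_nsmul univ Z (Z i) (fun j hj => hi j hj)
    simpa using this
  have hfin : ∑ v ∈ S.filter (fun v => t1 i v), Q.wt v * Q.ord v (r i - 1) = Z i := by
    rw [Finset.sum_filter, hZ]
    apply Finset.sum_congr rfl
    intro v _
    simp only [hz]
    by_cases h : t1 i v
    · rw [if_pos h, if_pos h]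
    · rw [if_neg h, if_neg h, mul_zero]
  refine ⟨i, S.filter (fun v => t1 i v), ?_, ?_, ?_⟩
  · intro hi1
    have h1 : Z i = 0 := Finset.sum_eq_zero fun v _ => by
      simp only [hz]
      rw [if_neg (fun h => h.1 hi1), mul_zero]
    rw [h1, mul_zero] at hmax
    linarith
  · intro v hv
    have := (Finset.mem_filter.mp hv).2
    exact ⟨this.2.1, this.2.2⟩
  · rw [hfin]
    linarith

end Pool.Agent.X50.FP
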